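import Pool.Agent.Helper93.FU.Goals

set_option autoImplicit false

namespace Pool.Agent.Helper48.FU

open Pool.Agent.Helper39.CarDefs Pool.Agent.Helper93.FU

theorem gADDA : S_ZA → Pool.Agent.Helper93.FU.S_ADDA := by
  intro hZA 𝒩 T hT i A A' B _ _ _ hA hA' f g h hfg hh z
  obtain ⟨hid, hcomp, -, -⟩ := hT.functorial
  have hzero := (hZA 𝒩 T hT).2.1
  let i₁ : Hom A (A × A) := NonUnitalStarAlgHom.inl ℂ A A
  let i₂ : Hom A (A × A) := NonUnitalStarAlgHom.inr ℂ A A
  let p₁ : Hom (A × A) A := NonUnitalStarAlgHom.fst ℂ A A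
  let p₂ : Hom (A × A) A := NonUnitalStarAlgHom.snd ℂ A A
  have hi₁ : ∀ a, i₁ a = (a, 0) := fun a => rfl
  have hi₂ : ∀ a, i₂ a = (0, a) := fun a => rfl
  have hp₁ : ∀ x, p₁ x = x.1 := fun x => rfl
  have hp₂ : ∀ x, p₂ x = x.2 := fun x => rfl
  have hext : IsExtension i₁ p₂ := by
    refine ⟨fun x y hxy => ?_, fun a => ⟨(0, a), rfl⟩, fun a => ?_⟩
    · have := congrArg Prod.fst hxy
      exact this
    · rw [hp₂]
      constructor
      · intro ha
        refine ⟨a.1, ?_⟩
        rw [hi₁]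
        exact Prod.ext rfl ha.symm
      · rintro ⟨x, rfl⟩
        rfl
  have hAA : 𝒩 (A × A) := hT.cls.ext A (A × A) A i₁ p₂ hext hA hA
  have hgf : ∀ a a', g a * f a' = 0 := by
    intro a a'
    have h1 := hfg (star a') (star a)
    have h2 := congrArg star h1
    rw [star_mul, ← map_star, ← map_star, star_star, star_star, star_zero] at h2
    exact h2
  let Φ : Hom (A × A) A' :=
    { toFun := fun x => f x.1 + g x.2
      map_smul' := fun c x => by
        change f (c • x.1) + g (c • x.2) = c • (f x.1 + g x.2)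
        rw [map_smul, map_smul, smul_add]
      map_zero' := by
        change f 0 + g 0 = 0
        rw [map_zero, map_zero, add_zero]
      map_add' := fun x y => by
        change f (x.1 + y.1) + g (x.2 + y.2) = (f x.1 + g x.2) + (f y.1 + g y.2)
        rw [map_add, map_add]
        abel
      map_mul' := fun x y => by
        change f (x.1 * y.1) + g (x.2 * y.2) = (f x.1 + g x.2) * (f y.1 + g y.2)
        rw [map_mul, map_mul, add_mul, mul_add, mul_add, hfg, hgf, add_zero, zero_add]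
      map_star' := fun x => by
        change f (star x.1) + g (star x.2) = star (f x.1 + g x.2)
        rw [map_star, map_star, star_add] }
  have hΦ : ∀ x, Φ x = f x.1 + g x.2 := fun x => rfl
  let δ : Hom A (A × A) := (NonUnitalStarAlgHom.id ℂ A).prod (NonUnitalStarAlgHom.id ℂ A)
  have hδ : ∀ a, δ a = (a, a) := fun a => rfl
  -- the decomposition
  have key : ∀ w : T.G i (A × A) B,
      w = T.pull i B p₁ (T.pull i B i₁ w) + T.pull i B p₂ (T.pull i B i₂ w) := by
    intro w
    have hex := (hT.sixA i A (A × A) A B hAA i₁ p₂ hext).1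
    have e1 : T.pull i B i₁ (T.pull i B p₁ (T.pull i B i₁ w)) = T.pull i B i₁ w := by
      rw [← hcomp i A (A × A) A B hA hAA hA i₁ p₁ (NonUnitalStarAlgHom.id ℂ A) (fun a => rfl)]
      exact (hid i A B hA).1 _ (fun a => rfl) _
    have e2 : T.pull i B i₁ (w - T.pull i B p₁ (T.pull i B i₁ w)) = 0 := by
      rw [map_sub, e1, sub_self]
    obtain ⟨v, hv⟩ := (hex _).1 e2
    have e3 : T.pull i B i₂ (T.pull i B p₂ v) = v := by
      rw [← hcomp i A (A × A) A B hA hAA hA i₂ p₂ (NonUnitalStarAlgHom.id ℂ A) (fun a => rfl)]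
      exact (hid i A B hA).1 _ (fun a => rfl) _
    have e4 : T.pull i B i₂ (T.pull i B p₁ (T.pull i B i₁ w)) = 0 := by
      rw [← hcomp i A (A × A) A B hA hAA hA i₂ p₁ (0 : Hom A A) (fun a => rfl)]
      exact hzero i A A B hA hA _ (fun a => rfl) _
    have e5 : v = T.pull i B i₂ w := by
      rw [← e3, hv, map_sub, e4, sub_zero]
    rw [← e5, hv]
    abel
  have k := key (T.pull i B Φ z)
  have f1 : T.pull i B i₁ (T.pull i B Φ z) = T.pull i B f z := by
    rw [← hcomp i A (A × A) A' B hA hAA hA' i₁ Φ f]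
    intro a
    rw [hΦ, hi₁]
    simp
  have f2 : T.pull i B i₂ (T.pull i B Φ z) = T.pull i B g z := by
    rw [← hcomp i A (A × A) A' B hA hAA hA' i₂ Φ g]
    intro a
    rw [hΦ, hi₂]
    simp
  rw [f1, f2] at k
  have f3 : T.pull i B δ (T.pull i B Φ z) = T.pull i B h z := by
    rw [← hcomp i A (A × A) A' B hA hAA hA' δ Φ h]
    intro a
    rw [hΦ, hδ, hh]
  have f4 : ∀ y, T.pull i B δ (T.pull i B p₁ y) = y := by
    intro y
    rw [← hcomp i A (A × A) A B hA hAA hA δ p₁ (NonUnitalStarAlgHom.id ℂ A) (fun a => rfl)]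
    exact (hid i A B hA).1 _ (fun a => rfl) _
  have f5 : ∀ y, T.pull i B δ (T.pull i B p₂ y) = y := by
    intro y
    rw [← hcomp i A (A × A) A B hA hAA hA δ p₂ (NonUnitalStarAlgHom.id ℂ A) (fun a => rfl)]
    exact (hid i A B hA).1 _ (fun a => rfl) _
  rw [← f3, k, map_add, f4, f5]

end Pool.Agent.Helper48.FU
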